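import Pool.Agent.U308.LP.Lin
import Pool.Agent.N469.LP.Multi

set_option autoImplicit false

/-! Several multipliers at the same time (adapted from the starting file `Pool.Agent.N469.LP.Multi`). -/

namespace Pool.Agent.U308.LP
open Finset
open Pool.Agent.H373R2.T7
open Pool.Agent.N469.LP
open Pool.Agent.U308.TL (Cond2)
open Pool.Agent.N469.SM (SS mem_SS one_mem_SS SS_mono card_SS_le card_SS_pos)

/-- the theorem for all the forms `- m p + Y`, `1 ≤ m ≤ m₀` -/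
theorem sm_multi2 (ε : ℝ) (hε : 0 < ε) (μ : ℤ) (hμ : μ ≠ 0) (Kp Bc A Bq Bw : ℕ) (δ : ℝ) (hδ : 0 < δ) (m₀ : ℕ) : ∀ U : ℕ,
    ∃ N₀ : ℕ, ∀ N, N₀ ≤ N → ∀ P y, Cond2 δ Kp N P y → ∀ E : ℕ → Prop, ∀ _ : DecidablePred E,
    (∃ cc : ℤ, |cc| ≤ Bc * N ∧ ∀ v, E v → ∃ m : ℕ, 1 ≤ m ∧ m ≤ m₀ ∧ ∃ r : ℤ, |(r : ℝ)| ≤ Real.log N ^ A ∧ cc + μ * (v : ℤ) + r ≠ 0 ∧
      Int.gcd (-(m : ℤ)) (cc + μ * (v : ℤ) + r) = 1 ∧ 2 ∣ -(m : ℤ) * (cc + μ * (v : ℤ) + r) ∧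
      ¬ GoodL ε Bc Bq Bw (-(m : ℤ)) N (cc + μ * (v : ℤ) + r)) →
    ∑ v ∈ SS P N, (if E v then 1 / ((SS P N).card : ℝ) else 0) ≤ 1 / Real.log N ^ U := by
  classical
  induction m₀ with
  | zero =>
    intro U
    refine ⟨3, fun N hN P y _ E _ hE => ?_⟩
    obtain ⟨cc, _, hE⟩ := hE
    have hno : ∀ v, ¬ E v := by
      intro v hv
      obtain ⟨m, h1, h2, _⟩ := hE v hv
      omega
    have h0 : 0 ≤ Real.log N := Real.log_natCast_nonneg N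
    refine le_trans (le_of_eq ?_) (show (0 : ℝ) ≤ 1 / Real.log N ^ U by positivity)
    apply sum_eq_zero
    intro v _
    rw [if_neg (hno v)]
  | succ m₀ ih =>
    intro U
    obtain ⟨N1, h1⟩ := ih (U + 1)
    obtain ⟨N2, h2⟩ := sm_lin2 ε hε μ hμ (-((m₀ + 1 : ℕ) : ℤ)) (by
      have : ((m₀ + 1 : ℕ) : ℤ) ≠ 0 := by exact_mod_cast Nat.succ_ne_zero m₀
      exact neg_ne_zero.2 this) Kp Bc A Bq Bw (U + 1) δ hδ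
    obtain ⟨N3, h3⟩ := ev_L' 2
    refine ⟨N1 + N2 + N3, fun N hN P y hP E _ hE => ?_⟩
    obtain ⟨cc, hcc, hE⟩ := hE
    have a1 := h1 N (by omega) P y hP (fun v => ∃ m : ℕ, 1 ≤ m ∧ m ≤ m₀ ∧ ∃ r : ℤ, |(r : ℝ)| ≤ Real.log N ^ A ∧ cc + μ * (v : ℤ) + r ≠ 0 ∧
      Int.gcd (-(m : ℤ)) (cc + μ * (v : ℤ) + r) = 1 ∧ 2 ∣ -(m : ℤ) * (cc + μ * (v : ℤ) + r) ∧
      ¬ GoodL ε Bc Bq Bw (-(m : ℤ)) N (cc + μ * (v : ℤ) + r)) (fun v => inferInstance) ⟨cc, hcc, fun v hv => hv⟩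
    have a2 := h2 N (by omega) P y hP (fun v => ∃ r : ℤ, |(r : ℝ)| ≤ Real.log N ^ A ∧ cc + μ * (v : ℤ) + r ≠ 0 ∧
      Int.gcd (-((m₀ + 1 : ℕ) : ℤ)) (cc + μ * (v : ℤ) + r) = 1 ∧ 2 ∣ -((m₀ + 1 : ℕ) : ℤ) * (cc + μ * (v : ℤ) + r) ∧
      ¬ GoodL ε Bc Bq Bw (-((m₀ + 1 : ℕ) : ℤ)) N (cc + μ * (v : ℤ) + r)) (fun v => inferInstance) ⟨cc, hcc, fun v hv => hv⟩
    refine or_event (h3 N (by omega)) U E _ _ ?_ a1 a2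
    intro v hv
    obtain ⟨m, c1, c2, c3⟩ := hE v hv
    rcases Nat.lt_or_ge m (m₀ + 1) with h | h
    · exact Or.inl ⟨m, c1, by omega, c3⟩
    · have : m = m₀ + 1 := by omega
      subst this
      exact Or.inr c3

end Pool.Agent.U308.LP
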