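import Pool.Agent.U308.LP.RepZ
import Pool.Agent.N469.LP.Fin

set_option autoImplicit false

/-! Prime pairs `p`, `C p + Y` for all the `Y` near almost all smooth numbers (adapted from the starting file
`Pool.Agent.N469.LP.Fin`). -/

namespace Pool.Agent.U308.LP
open Finset
open Pool.Agent.H373R2.T7
open Pool.Agent.N469.TL (log_digits form near abs_val)
open Pool.Agent.N469.LP
open Pool.Agent.U308.TL (Cond2)
open Pool.Agent.N469.SM (SS mem_SS one_mem_SS SS_mono card_SS_le card_SS_pos)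

theorem sm_lin2 (ε : ℝ) (hε : 0 < ε) (μ : ℤ) (hμ : μ ≠ 0) (C : ℤ) (hC : C ≠ 0) (Kp Bc A Bq Bw U : ℕ) (δ : ℝ) (hδ : 0 < δ) :
    ∃ N₀ : ℕ, ∀ N, N₀ ≤ N → ∀ P y, Cond2 δ Kp N P y → ∀ E : ℕ → Prop, ∀ _ : DecidablePred E,
    (∃ cc : ℤ, |cc| ≤ Bc * N ∧ ∀ v, E v → ∃ r : ℤ, |(r : ℝ)| ≤ Real.log N ^ A ∧ cc + μ * (v : ℤ) + r ≠ 0 ∧
      Int.gcd C (cc + μ * (v : ℤ) + r) = 1 ∧ 2 ∣ C * (cc + μ * (v : ℤ) + r) ∧ ¬ GoodL ε Bc Bq Bw C N (cc + μ * (v : ℤ) + r)) →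
    ∑ v ∈ SS P N, (if E v then 1 / ((SS P N).card : ℝ) else 0) ≤ 1 / Real.log N ^ U := by
  classical
  obtain ⟨Bc1, hBc1⟩ : ∃ Bc1, Bc1 = Bc + μ.natAbs + 1 := ⟨_, rfl⟩
  obtain ⟨J, hJ⟩ : ∃ J, J = Bq + Bw + 6 := ⟨_, rfl⟩
  obtain ⟨T', hT'⟩ : ∃ T', T' = 2 * (Bq + 1) + (J + 1) := ⟨_, rfl⟩
  obtain ⟨U', hU'⟩ : ∃ U', U' = U + (Bq + Bw + 4) := ⟨_, rfl⟩
  obtain ⟨B, hB⟩ := sm_repZ2 μ hμ C hC Kp (Bc1 + 1) A T' U' δ hδ
  obtain ⟨E1, hE1⟩ : ∃ E1, E1 = B + Bq + Bw + 8 := ⟨_, rfl⟩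
  obtain ⟨N1, h1⟩ := hB (E1 + 1)
  obtain ⟨N2, h2⟩ := det_good ε hε C hC Bc1 Bq Bw E1 (by omega)
  obtain ⟨N3, h3⟩ := ev_L' (2 * ((Bc1 + 2 : ℕ) : ℝ) + Real.log ((Bc1 + 1 : ℕ) : ℝ) + 8)
  obtain ⟨N4, h4⟩ := ev_log' A 1
  refine ⟨N1 + N2 + N3 + N4 + 4, fun N hN P y hP E _ hE => ?_⟩
  obtain ⟨cc, hcc, hbad⟩ := hE
  have hL := h3 N (by omega)
  have hA := h4 N (by omega)
  rw [one_mul] at hA
  have hN0 : (0 : ℝ) < N := by exact_mod_cast (by omega : 0 < N)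
  obtain ⟨L, hLd⟩ : ∃ L, L = Real.log (N : ℝ) := ⟨_, rfl⟩
  have k1 := h1 N (by omega) P y hP
  have k2 := h2 N (by omega)
  rw [← hLd] at hL hA k1 k2 hbad ⊢
  have p1 : (2 : ℝ) ≤ ((Bc1 + 2 : ℕ) : ℝ) := by exact_mod_cast (by omega : 2 ≤ Bc1 + 2)
  have p2 : 0 ≤ Real.log ((Bc1 + 1 : ℕ) : ℝ) := Real.log_natCast_nonneg _
  have hL8 : 8 ≤ L := by linarith
  have hL1 : 1 ≤ L := by linarith
  have hL0 : 0 < L := by linarith
  have hss : √(N : ℝ) * √(N : ℝ) = N := Real.mul_self_sqrt hN0.le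
  have hs0 : 0 < √(N : ℝ) := Real.sqrt_pos.2 hN0
  have hs1 : 1 ≤ √(N : ℝ) := by
    rw [Real.one_le_sqrt]
    exact_mod_cast (by omega : 1 ≤ N)
  -- the parameters
  obtain ⟨z, hz⟩ : ∃ z : ℕ, z = ⌈L ^ E1⌉₊ := ⟨_, rfl⟩
  have hz1 : L ^ E1 ≤ z := by rw [hz]; exact Nat.le_ceil _
  have hz2 : (z : ℝ) ≤ L ^ (E1 + 1) := by
    have q1 : (z : ℝ) < L ^ E1 + 1 := by rw [hz]; exact Nat.ceil_lt_add_one (by positivity)
    have q2 : 1 ≤ L ^ E1 := one_le_pow₀ hL1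
    rw [pow_succ]
    nlinarith
  obtain ⟨T, hT⟩ : ∃ T : ℕ, T = ⌈L ^ J⌉₊ := ⟨_, rfl⟩
  have hT1 : L ^ J ≤ T := by rw [hT]; exact Nat.le_ceil _
  have hT2 : (T : ℝ) ≤ L ^ J + 1 := by rw [hT]; exact (Nat.ceil_lt_add_one (by positivity)).le
  have hT0 : 1 ≤ T := by
    have : (1 : ℝ) ≤ T := (one_le_pow₀ hL1).trans hT1
    exact_mod_cast this
  obtain ⟨Qn, hQn⟩ : ∃ Qn : ℕ, Qn = ⌊L ^ Bq⌋₊ := ⟨_, rfl⟩
  have hQn1 : (Qn : ℝ) ≤ L ^ Bq := by rw [hQn]; exact Nat.floor_le (by positivity)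
  obtain ⟨s, hs⟩ : ∃ s, s = N / T + 1 := ⟨_, rfl⟩
  have hsT : N < T * s := by
    rw [hs]
    have := Nat.lt_div_mul_add (a := N) (b := T) (by omega)
    calc N < N / T * T + T := this
      _ = T * (N / T + 1) := by ring
  have hs1' : 1 ≤ s := by rw [hs]; exact Nat.le_add_left 1 _
  obtain ⟨I, hI⟩ : ∃ I : ℕ, I = (Bc1 + 1) * T := ⟨_, rfl⟩
  have hIb : ∀ i, i * s ≤ (Bc1 + 1) * N → i ≤ I := by
    intro i hi
    by_contra hlt
    push Not at hlt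
    have q1 : (Bc1 + 1) * N ≤ (Bc1 + 1) * (T * s) := Nat.mul_le_mul_left _ hsT.le
    have q2 : I * s < i * s := Nat.mul_lt_mul_of_pos_right hlt hs1'
    rw [hI] at q2
    have q3 : (Bc1 + 1) * (T * s) = (Bc1 + 1) * T * s := by ring
    omega
  -- the event
  have hmain := k1 z (le_trans (pow_le_pow_right₀ hL1 (by omega)) hz1) hz2 (fun v => E v ∧ v ≤ N) (fun v => inferInstance) ?_
  · refine (le_trans (le_of_eq ?_) hmain).trans ?_
    · apply sum_congr rfl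
      intro v hv
      have hvN := (mem_SS.1 hv).1.2
      by_cases hEv : E v
      · rw [if_pos hEv, if_pos ⟨hEv, hvN⟩]
      · rw [if_neg hEv, if_neg (fun h => hEv h.1)]
    · apply one_div_le_one_div_of_le (by positivity)
      exact pow_le_pow_right₀ hL1 (by omega)
  -- the family
  obtain ⟨e, _⟩ : ∃ e : (Fin (Qn + 1) × Fin (Qn + 1) × Fin (I + 1)) ≃ Fin (Fintype.card (Fin (Qn + 1) × Fin (Qn + 1) × Fin (I + 1))),
    e = Fintype.equivFin _ := ⟨_, rfl⟩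
  refine ⟨cc, Fintype.card (Fin (Qn + 1) × Fin (Qn + 1) × Fin (I + 1)), fun l n =>
    if n ≤ ((e.symm l).2.2 : ℕ) * s then (if n ≡ ((e.symm l).2.1 : ℕ) [MOD ((e.symm l).1 : ℕ)] then ArithmeticFunction.vonMangoldt n else 0) else 0,
    ?_, ?_, ?_, ?_⟩
  · refine hcc.trans ?_
    apply mul_le_mul_of_nonneg_right _ (by positivity)
    exact_mod_cast (by omega : Bc ≤ Bc1 + 1)
  · rw [Fintype.card_prod, Fintype.card_prod, Fintype.card_fin, Fintype.card_fin]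
    push_cast
    have q1 : (Qn : ℝ) + 1 ≤ L ^ (Bq + 1) := by
      have : 1 ≤ L ^ Bq := one_le_pow₀ hL1
      rw [pow_succ]
      nlinarith
    have q2 : (I : ℝ) + 1 ≤ L ^ (J + 1) := by
      rw [hI]
      push_cast
      have q3 : 1 ≤ L ^ J := one_le_pow₀ hL1
      have q4 : ((Bc1 + 2 : ℕ) : ℝ) = Bc1 + 2 := by push_cast; ring
      have q5 : (0 : ℝ) ≤ Bc1 := Nat.cast_nonneg _
      calc ((Bc1 : ℝ) + 1) * T + 1 ≤ (Bc1 + 1) * (L ^ J + 1) + 1 := by gcongr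
        _ ≤ (2 * (Bc1 + 2)) * L ^ J := by nlinarith
        _ ≤ L * L ^ J := by
            apply mul_le_mul_of_nonneg_right _ (by positivity)
            rw [q4] at hL
            linarith
        _ = L ^ (J + 1) := by ring
    rw [hT', show 2 * (Bq + 1) + (J + 1) = (Bq + 1) + ((Bq + 1) + (J + 1)) by ring, pow_add, pow_add _ (Bq + 1) (J + 1)]
    gcongr
  · intro l n hn1 hn2
    simp only
    have q0 : (1 : ℝ) ≤ n := by exact_mod_cast hn1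
    have q1 : ArithmeticFunction.vonMangoldt n ≤ L ^ T' := by
      refine ArithmeticFunction.vonMangoldt_le_log.trans ?_
      have q2 : Real.log n ≤ Real.log ((Bc1 + 1 : ℕ) : ℝ) + L := by
        rw [hLd, ← Real.log_mul (by exact_mod_cast (by omega : (Bc1 + 1 : ℕ) ≠ 0)) hN0.ne']
        apply Real.log_le_log (by linarith)
        exact_mod_cast hn2
      calc Real.log n ≤ 2 * L := by linarith
        _ ≤ L ^ 2 := by nlinarith
        _ ≤ L ^ T' := pow_le_pow_right₀ hL1 (by omega)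
    have q3 : (0 : ℝ) ≤ ArithmeticFunction.vonMangoldt n := ArithmeticFunction.vonMangoldt_nonneg
    have q4 : (0 : ℝ) ≤ L ^ T' := by positivity
    split_ifs
    · rw [abs_of_nonneg q3]; exact q1
    · rw [abs_zero]; exact q4
    · rw [abs_zero]; exact q4
  · rintro v ⟨hEv, hvN⟩
    obtain ⟨r, hr, c1, c2, c3, c4⟩ := hbad v hEv
    refine ⟨r, hr, ?_⟩
    by_contra hcon
    push Not at hcon
    apply c4
    -- the bound for `Y`
    have hYb : |cc + μ * (v : ℤ) + r| ≤ Bc1 * N := by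
      have a1 := abs_val μ Bc N v cc hcc hvN
      have a2 : |r| ≤ (N : ℤ) := by
        have a3 : |(r : ℝ)| ≤ N := by
          refine hr.trans (hA.trans ?_)
          nlinarith
        rw [← Int.cast_abs] at a3
        exact_mod_cast a3
      have a3 : |(cc + μ * (v : ℤ)) + r| ≤ |cc + μ * (v : ℤ)| + |r| := abs_add_le _ _
      have e3 : ((Bc1 : ℕ) : ℤ) * N = ((Bc + μ.natAbs : ℕ) : ℤ) * N + N := by rw [hBc1]; push_cast; ring
      rw [e3]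
      linarith
    have hgood := k2 z hz1 hz2 T (by rw [← hJ]; exact hT1) (cc + μ * (v : ℤ) + r) c1 c2 c3 hYb (by
      intro q x₀ i hq hqB hx₀ hi
      rw [← hs] at hi ⊢
      have hqQ : q < Qn + 1 := by
        rw [hQn]
        exact Nat.lt_succ_of_le (Nat.le_floor hqB)
      have hiI : i < I + 1 := Nat.lt_succ_of_le (hIb i hi)
      have h5 := hcon (e (⟨q, hqQ⟩, ⟨x₀, by omega⟩, ⟨i, hiI⟩))
      simp only [Equiv.symm_apply_apply] at h5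
      rw [GS_diff C _ z q x₀ (i * s) _ hi] at h5
      refine h5.trans ?_
      apply div_le_div_of_nonneg_left hN0.le (by positivity)
      exact pow_le_pow_right₀ hL1 (by omega))
    intro q x₀ M M' hq hqB hx₀ hxY hM'
    have hM'' : M' ≤ Bc1 * N := hM'.trans (Nat.mul_le_mul_right _ (by omega))
    exact hgood q x₀ M M' hq hqB hx₀ hxY hM''

end Pool.Agent.U308.LP
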