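import Pool.Agent.U308.TL.Fin
import Pool.Agent.N469.LP.Rep

set_option autoImplicit false

/-! Replacing the von Mangoldt function by its sieve model at the values `c n + Y`, for all the `Y` near almost all
smooth numbers, for several weights (adapted from the starting file `Pool.Agent.N469.LP.Rep`). -/

namespace Pool.Agent.U308.LP
open Finset
open Pool.Agent.H373R2.T7
open Pool.Agent.N469.TL (log_digits form near abs_val)
open Pool.Agent.N469.LP (sum_mult)
open Pool.Agent.U308.TL (Cond2 sm_tlaw2 dom_le)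
open Pool.Agent.N469.SM (SS mem_SS one_mem_SS SS_mono card_SS_le card_SS_pos)

theorem sm_rep2 (μ : ℤ) (hμ : μ ≠ 0) (c : ℕ) (hc : 1 ≤ c) (Kp Bc A T U : ℕ) (δ : ℝ) (hδ : 0 < δ) :
    ∃ B : ℕ, ∀ Ez : ℕ, ∃ N₀ : ℕ, ∀ N, N₀ ≤ N → ∀ P y, Cond2 δ Kp N P y → ∀ z : ℕ, Real.log N ^ B ≤ z → (z : ℝ) ≤ Real.log N ^ Ez →
    ∀ E : ℕ → Prop, ∀ _ : DecidablePred E,
    (∃ (cc : ℤ) (L : ℕ) (g : Fin L → ℕ → ℝ), |cc| ≤ Bc * N ∧ (L : ℝ) ≤ Real.log N ^ T ∧
      (∀ l n, 1 ≤ n → n ≤ Bc * N → |g l n| ≤ Real.log N ^ T) ∧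
      ∀ v, E v → ∃ r : ℤ, |(r : ℝ)| ≤ Real.log N ^ A ∧ ∃ l,
        (N : ℝ) / Real.log N ^ U < |∑ n ∈ Icc 1 (Bc * N), g l n *
          (lamI (((c * n : ℕ) : ℤ) + (cc + μ * (v : ℤ) + r)) - lamzI z (((c * n : ℕ) : ℤ) + (cc + μ * (v : ℤ) + r)))|) →
    ∑ v ∈ SS P N, (if E v then 1 / ((SS P N).card : ℝ) else 0) ≤ 1 / Real.log N ^ U := by
  classical
  obtain ⟨U1, hU1⟩ : ∃ U1, U1 = U + (U + A + 1 + 2) + 2 * T + 1 := ⟨_, rfl⟩
  obtain ⟨e₁, he₁⟩ : ∃ e₁, e₁ = (2 * c + 2) * (Bc + 1) + μ.natAbs + 3 := ⟨_, rfl⟩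
  obtain ⟨c₁, N1, h1⟩ := sm_tlaw2 δ hδ Kp μ.natAbs 1 (2 * U1 + 6) (U + A + 1 + 1) (by omega)
  obtain ⟨B, hB⟩ := Pool.Agent.Y885.tl_dif 2 3 c₁ le_rfl (by norm_num) U1
  refine ⟨B + 1, fun Ez => ?_⟩
  obtain ⟨K0, h3⟩ := hB Ez
  obtain ⟨N4, h4⟩ := near A U
  obtain ⟨S, hS⟩ : ∃ S : ℕ, S = 2 ^ (e₁ + 1) := ⟨_, rfl⟩
  obtain ⟨N5, h5⟩ := ev_L' ((2 ^ B + S + Real.log S + 1 : ℝ))
  obtain ⟨Z, hZ⟩ : ∃ Z : ℕ, Z = 2 ^ (K0 + S) := ⟨_, rfl⟩
  refine ⟨N1 + N4 + N5 + Z + 3, fun N hN P y hP z hz1 hz2 E _ hE => ?_⟩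
  obtain ⟨cc, L, g, hcc, hL, hg, hbad⟩ := hE
  obtain ⟨w, hw0, hw1, hdom, hlaw⟩ := h1 N (by omega) P y hP
  have hk : K0 + S ≤ Nat.log 2 N := (Nat.le_log_iff_pow_le (by norm_num) (by omega)).2 (by rw [← hZ]; omega)
  have hlog := (log_digits N (by omega)).1
  have hLN0 : 0 < Real.log N := Real.log_pos (by exact_mod_cast (by omega : 1 < N))
  have hp0 : (0 : ℝ) ≤ 1 / ((SS P N).card : ℝ) := by positivity
  have hN0 : (0 : ℝ) < N := by exact_mod_cast (by omega : 0 < N)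
  have hS1 : (1 : ℝ) ≤ S := by rw [hS]; exact_mod_cast Nat.one_le_two_pow
  have hlS : 0 ≤ Real.log S := Real.log_natCast_nonneg S
  have hL5 := h5 N (by omega)
  have hp2 : (1 : ℝ) ≤ 2 ^ B := one_le_pow₀ (by norm_num)
  have hLN1 : 2 ≤ Real.log N := by linarith
  obtain ⟨K, hK⟩ : ∃ K, K = Nat.log 2 N + 1 + e₁ := ⟨_, rfl⟩
  have hlogK : Real.log N ≤ K := by
    refine hlog.trans ?_
    rw [hK]
    exact_mod_cast Nat.le_add_right _ _
  have hK0 : (0 : ℝ) < K := by linarith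
  have a1 : 2 ^ K ≤ S * N := by
    rw [hK, hS, show Nat.log 2 N + 1 + e₁ = (e₁ + 1) + Nat.log 2 N by ring, pow_add]
    exact Nat.mul_le_mul_left _ (Nat.pow_log_le_self 2 (by omega))
  have a2 : ((2 ^ K : ℕ) : ℝ) ≤ S * N := by exact_mod_cast a1
  have hNK : ((e₁ : ℕ) : ℤ) * N < (2 : ℤ) ^ K := by
    have b1 : N < 2 ^ (Nat.log 2 N + 1) := Nat.lt_pow_succ_log_self (by norm_num) N
    have b2 : e₁ < 2 ^ e₁ := Nat.lt_two_pow_self
    have b3 : e₁ * N < 2 ^ e₁ * 2 ^ (Nat.log 2 N + 1) := Nat.mul_lt_mul'' b2 b1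
    rw [hK, add_comm, pow_add]
    exact_mod_cast b3
  have hN2K : (N : ℝ) ≤ ((2 ^ K : ℕ) : ℝ) := by
    have b1 : (1 : ℤ) * N ≤ (e₁ : ℤ) * N := mul_le_mul_of_nonneg_right (by exact_mod_cast (by omega : 1 ≤ e₁)) (by positivity)
    have b2 : (N : ℤ) ≤ (2 : ℤ) ^ K := by linarith
    exact_mod_cast b2
  obtain ⟨LX, hLX⟩ : ∃ LX, LX = Real.log ((2 ^ K : ℕ) : ℝ) := ⟨_, rfl⟩
  have hLX1 : Real.log N ≤ LX := by rw [hLX]; exact Real.log_le_log hN0 hN2K
  have hLX2 : LX ≤ 2 * Real.log N := by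
    rw [hLX]
    refine (Real.log_le_log (by positivity) a2).trans ?_
    rw [Real.log_mul (by positivity) hN0.ne']
    linarith
  have hz1' : LX ^ B ≤ z := by
    refine le_trans ?_ hz1
    calc LX ^ B ≤ (2 * Real.log N) ^ B := pow_le_pow_left₀ (by linarith) hLX2 _
      _ = 2 ^ B * Real.log N ^ B := mul_pow _ _ _
      _ ≤ Real.log N * Real.log N ^ B := mul_le_mul_of_nonneg_right (by linarith) (by positivity)
      _ = Real.log N ^ (B + 1) := by ring
  have hz2' : (z : ℝ) ≤ LX ^ Ez := hz2.trans (pow_le_pow_left₀ hLN0.le hLX1 _)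
  obtain ⟨D, hD⟩ : ∃ D : ℤ → Fin L → ℕ → ℝ, D = fun (r : ℤ) (l : Fin L) (v : ℕ) => ∑ n ∈ Icc 1 (Bc * N), g l n *
          (lamI (((c * n : ℕ) : ℤ) + (cc + μ * (v : ℤ) + r)) - lamzI z (((c * n : ℕ) : ℤ) + (cc + μ * (v : ℤ) + r))) := ⟨_, rfl⟩
  refine h4 N (by omega) (SS P N) _ hp0 E _ (fun r v => ∃ l, (N : ℝ) / Real.log N ^ U < |D r l v|)
      (fun r v => Classical.propDecidable _) ?_ ?_
  · intro r _ hr
    have hform : (∀ v : ℕ, (cc + μ * (v : ℤ) + r) = (cc + r) + ((1 : ℕ) : ℤ) * ((μ.natAbs : ℤ) * (v : ℤ))) ∨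
        (∀ v : ℕ, (cc + μ * (v : ℤ) + r) = (cc + r) - ((1 : ℕ) : ℤ) * ((μ.natAbs : ℤ) * (v : ℤ))) := by
      rcases form 1 μ (cc + r) with h | h
      · left
        intro v
        rw [← h v]
        push_cast
        ring
      · right
        intro v
        rw [← h v]
        push_cast
        ring
    have he : 2 ^ e₁ ≤ (Nat.log 2 N + 1) ^ 1 := by
      rw [pow_one]
      have : 2 ^ e₁ ≤ S := by rw [hS]; exact Nat.pow_le_pow_right (by norm_num) (by omega)
      omega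
    have l1 := hlaw e₁ he 1 le_rfl (Nat.one_le_pow _ _ (by omega)) (cc + r)
      (fun v => cc + μ * (v : ℤ) + r) hform
    rw [← hK] at l1
    have hval : ∀ v ∈ SS P N, |cc + μ * (v : ℤ) + r| + c * (Bc * N) ≤ (e₁ : ℤ) * N - N := by
      intro v hv
      have a1 := abs_val μ Bc N v cc hcc (mem_SS.1 hv).1.2
      have a3 : |(cc + μ * (v : ℤ)) + r| ≤ |cc + μ * (v : ℤ)| + |r| := abs_add_le _ _
      have e : ((e₁ : ℕ) : ℤ) = (2 * c + 2) * (Bc + 1) + μ.natAbs + 3 := by rw [he₁]; push_cast; ring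
      rw [e]
      push_cast at a1
      have b1 : (0 : ℤ) ≤ Bc * (N : ℤ) := by positivity
      have b2 : (0 : ℤ) ≤ c * (Bc * (N : ℤ)) := by positivity
      have b3 : (0 : ℤ) ≤ c * (N : ℤ) := by positivity
      nlinarith
    have key : ∀ l, ∑ v ∈ SS P N, w v * |D r l v| ≤ Real.log N ^ T * (((2 ^ K : ℕ) : ℝ) / (K : ℝ) ^ U1) := by
      intro l
      have k1 := h3 K (by omega) z (by rw [← hLX]; exact hz1') (by rw [← hLX]; exact hz2') ℕ _ _ _ l1 (c * (Bc * N)) (by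
        have b1 : ((c * (Bc * N) : ℕ) : ℤ) ≤ (2 : ℤ) ^ K := by
          have e : ((e₁ : ℕ) : ℤ) = (2 * c + 2) * (Bc + 1) + μ.natAbs + 3 := by rw [he₁]; push_cast; ring
          have b2 : (c : ℤ) * (Bc * N) ≤ (e₁ : ℤ) * N := by
            rw [← mul_assoc]
            apply mul_le_mul_of_nonneg_right _ (by positivity)
            rw [e]
            have : (0 : ℤ) ≤ c * Bc := by positivity
            have : (0 : ℤ) ≤ (c : ℤ) := by positivity
            have : (0 : ℤ) ≤ (Bc : ℤ) := by positivity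
            nlinarith
          push_cast
          linarith
        exact_mod_cast b1) (by
        intro v hv
        have a1 := hval v hv
        have a2 := abs_le.1 (le_refl |cc + μ * (v : ℤ) + r|)
        have a3 : (0 : ℤ) ≤ (c : ℤ) * (Bc * N) := by positivity
        have a4 : (0 : ℤ) < N := by exact_mod_cast (by omega : 0 < N)
        push_cast
        constructor
        · linarith [a2.1]
        · linarith [a2.2]) (Real.log N ^ T) (by positivity)
        (fun m => if c ∣ m then g l (m / c) else 0) (by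
          intro m hm
          rw [mem_Icc] at hm
          split_ifs with hd
          · obtain ⟨n, rfl⟩ := hd
            rw [Nat.mul_div_cancel_left n (by omega)]
            exact hg l n (Nat.pos_of_mul_pos_left hm.1) (Nat.le_of_mul_le_mul_left hm.2 hc)
          · rw [abs_zero]; positivity)
      refine le_trans (le_of_eq ?_) k1
      apply sum_congr rfl
      intro v _
      congr 2
      rw [hD]
      simp only
      rw [sum_mult c (Bc * N) hc (g l) (fun x => lamI x - lamzI z x) (cc + μ * (v : ℤ) + r)]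
    -- Markov
    have hthr : (0 : ℝ) < N / Real.log N ^ U := by positivity
    have g1 : ∀ v ∈ SS P N, (if ∃ l, (N : ℝ) / Real.log N ^ U < |D r l v| then w v else 0) ≤
        ∑ l, w v * |D r l v| / (N / Real.log N ^ U) := by
      intro v _
      split_ifs with h
      · obtain ⟨l, hl⟩ := h
        have hwv := hw0 v
        refine le_trans ?_ (single_le_sum (f := fun l => w v * |D r l v| / (N / Real.log N ^ U))
          (fun l _ => by positivity) (mem_univ l))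
        rw [le_div_iff₀ hthr]
        exact mul_le_mul_of_nonneg_left hl.le hwv
      · have hwv := hw0 v
        exact sum_nonneg fun l _ => by positivity
    refine dom_le N (U + A + 1) (SS P N) w hdom (by linarith) _ _ ?_
    refine le_trans (le_of_eq ?_) ((sum_le_sum g1).trans ?_)
    · apply sum_congr rfl
      intro v _
      congr
    rw [sum_comm]
    have g2 : ∀ l, ∑ v ∈ SS P N, w v * |D r l v| / (N / Real.log N ^ U) ≤
        Real.log N ^ T * (((2 ^ K : ℕ) : ℝ) / (K : ℝ) ^ U1) / (N / Real.log N ^ U) := by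
      intro l
      rw [← sum_div]
      exact div_le_div_of_nonneg_right (key l) hthr.le
    refine (sum_le_sum fun l _ => g2 l).trans ?_
    rw [sum_const, card_univ, Fintype.card_fin, nsmul_eq_mul]
    calc (L : ℝ) * (Real.log N ^ T * (((2 ^ K : ℕ) : ℝ) / (K : ℝ) ^ U1) / (N / Real.log N ^ U)) ≤
        Real.log N ^ T * (Real.log N ^ T * ((S * N) / Real.log N ^ U1) / (N / Real.log N ^ U)) := by
          have q1 : (S * N : ℝ) / (K : ℝ) ^ U1 ≤ (S * N) / Real.log N ^ U1 :=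
            div_le_div_of_nonneg_left (by positivity) (by positivity) (pow_le_pow_left₀ hLN0.le hlogK _)
          gcongr
      _ = (S * Real.log N ^ (U + 2 * T)) / Real.log N ^ U1 := by
          rw [show U + 2 * T = T + T + U by ring, pow_add, pow_add]
          field_simp
      _ ≤ (Real.log N * Real.log N ^ (U + 2 * T)) / Real.log N ^ U1 := by
          apply div_le_div_of_nonneg_right _ (by positivity)
          apply mul_le_mul_of_nonneg_right _ (by positivity)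
          linarith
      _ = 1 / Real.log N ^ (U + A + 1 + 2) := by
          rw [hU1, show U + (U + A + 1 + 2) + 2 * T + 1 = (U + 2 * T + 1) + (U + A + 1 + 2) by ring, pow_add _ _ (U + A + 1 + 2), ← pow_succ']
          field_simp
  · intro v _ hEv
    obtain ⟨r, hr, l, hlt⟩ := hbad v hEv
    refine ⟨r, hr, l, ?_⟩
    rw [hD]
    exact hlt

end Pool.Agent.U308.LP
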